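import Pool.Agent.W290.LG.Stm2
import Pool.Agent.ER.ToSysPoly
import Pool.Agent.H671R2.PolyAuto

/-! Project LG, part 2, task P: the system is computed in polynomial time. -/

set_option autoImplicit false

namespace Pool.Agent.W583.LG

open Pool.Agent Pool.Agent.NPC Pool.Agent.H881R2.Mat Pool.Agent.W290.LG

variable {α : Type} [TEnc α]

theorem poly_exch {L : α → List (List ℕ)} {l : α → List ℕ} {j k : α → ℕ} (hL : NPC.Poly L)
    (hl : NPC.Poly l) (hj : NPC.Poly j) (hk : NPC.Poly k) :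
    NPC.Poly (fun a => exch (L a) (l a) (j a) (k a)) := by
  unfold exch
  fun_prop

theorem poly_rad {L : α → List (List ℕ)} (hL : NPC.Poly L) :
    NPC.Poly (fun a => rad (L a)) := by
  unfold rad
  fun_prop

theorem poly_ix {N a₀ a₁ a₂ a₃ a₄ a₅ : α → ℕ} (hN : NPC.Poly N) (h0 : NPC.Poly a₀)
    (h1 : NPC.Poly a₁) (h2 : NPC.Poly a₂) (h3 : NPC.Poly a₃) (h4 : NPC.Poly a₄)
    (h5 : NPC.Poly a₅) :
    NPC.Poly (fun a => ix (N a) (a₀ a) (a₁ a) (a₂ a) (a₃ a) (a₄ a) (a₅ a)) := by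
  unfold ix
  fun_prop

attribute [local fun_prop] poly_exch poly_rad poly_ix ER.poly_con_one ER.poly_con_add
  ER.poly_con_mul

theorem poly_vC {N b j k : α → ℕ} (hN : NPC.Poly N) (hb : NPC.Poly b) (hj : NPC.Poly j)
    (hk : NPC.Poly k) : NPC.Poly (fun a => vC (N a) (b a) (j a) (k a)) := by
  unfold vC
  fun_prop

theorem poly_vY {N b j k : α → ℕ} (hN : NPC.Poly N) (hb : NPC.Poly b) (hj : NPC.Poly j)
    (hk : NPC.Poly k) : NPC.Poly (fun a => vY (N a) (b a) (j a) (k a)) := by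
  unfold vY
  fun_prop

theorem poly_vP {N b b' j m t : α → ℕ} (hN : NPC.Poly N) (hb : NPC.Poly b) (hb' : NPC.Poly b')
    (hj : NPC.Poly j) (hm : NPC.Poly m) (ht : NPC.Poly t) :
    NPC.Poly (fun a => vP (N a) (b a) (b' a) (j a) (m a) (t a)) := by
  unfold vP
  fun_prop

theorem poly_vS {N b b' j m t : α → ℕ} (hN : NPC.Poly N) (hb : NPC.Poly b) (hb' : NPC.Poly b')
    (hj : NPC.Poly j) (hm : NPC.Poly m) (ht : NPC.Poly t) :
    NPC.Poly (fun a => vS (N a) (b a) (b' a) (j a) (m a) (t a)) := by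
  unfold vS
  fun_prop

theorem poly_vZ {N : α → ℕ} (hN : NPC.Poly N) : NPC.Poly (fun a => vZ (N a)) := by
  unfold vZ
  fun_prop

theorem poly_vO {N : α → ℕ} (hN : NPC.Poly N) : NPC.Poly (fun a => vO (N a)) := by
  unfold vO
  fun_prop

attribute [local fun_prop] poly_vC poly_vY poly_vP poly_vS poly_vZ poly_vO

theorem poly_cEl {L : α → List (List ℕ)} {l : α → List ℕ} {b j k : α → ℕ} (hL : NPC.Poly L)
    (hl : NPC.Poly l) (hb : NPC.Poly b) (hj : NPC.Poly j) (hk : NPC.Poly k) :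
    NPC.Poly (fun a => cEl (L a) (l a) (b a) (j a) (k a)) := by
  unfold cEl
  fun_prop

theorem poly_cTr {L : α → List (List ℕ)} {l : α → List ℕ} {b b' j m : α → ℕ}
    (hL : NPC.Poly L) (hl : NPC.Poly l) (hb : NPC.Poly b) (hb' : NPC.Poly b')
    (hj : NPC.Poly j) (hm : NPC.Poly m) :
    NPC.Poly (fun a => cTr (L a) (l a) (b a) (b' a) (j a) (m a)) := by
  unfold cTr
  fun_prop

attribute [local fun_prop] poly_cEl poly_cTr

theorem t_P : Pool.Agent.W290.LG.S_P := by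
  show NPC.Poly sysL
  unfold sysL
  fun_prop

end Pool.Agent.W583.LG
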